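import Pool.Agent.W941.RP.Stm

/-! # RP-LOC: locality of the values -/

set_option autoImplicit false

namespace Pool.Agent.W554.RP

open MvPolynomial
open Pool.Agent.W941.RP

/-- the variables outside of `S` are set to zero -/
noncomputable def kS {d : ℕ} (S : Finset (Fin d)) :
    MvPolynomial (Fin d) ℂ →ₐ[ℂ] MvPolynomial (Fin d) ℂ :=
  aeval (fun j => if j ∈ S then X j else 0)

theorem mon_off {d : ℕ} (m : ℕ) (S : Finset (Fin d)) {j : Fin d} (hj : j ∉ S) : mon m S j = 0 := by
  unfold mon
  rw [Finsupp.finsetSum_apply]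
  apply Finset.sum_eq_zero
  intro i hi
  rw [Finsupp.single_apply, if_neg]
  rintro rfl
  exact hj hi

theorem coeff_kS {d : ℕ} (m : ℕ) (S : Finset (Fin d)) (p : MvPolynomial (Fin d) ℂ) :
    coeff (mon m S) (kS S p) = coeff (mon m S) p := by
  classical
  induction p using MvPolynomial.induction_on' with
  | monomial u c =>
    unfold kS
    rw [aeval_monomial]
    by_cases hu : u.support ⊆ S
    · have h1 : (u.prod fun i k => (if i ∈ S then (X i : MvPolynomial (Fin d) ℂ) else 0) ^ k) =
          u.prod fun i k => (X i : MvPolynomial (Fin d) ℂ) ^ k := by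
        apply Finsupp.prod_congr
        intro i hi
        rw [if_pos (hu hi)]
      rw [h1, algebraMap_eq, ← monomial_eq]
    · obtain ⟨j, hj, hjS⟩ := Finset.not_subset.1 hu
      have h1 : (u.prod fun i k => (if i ∈ S then (X i : MvPolynomial (Fin d) ℂ) else 0) ^ k) = 0 := by
        unfold Finsupp.prod
        apply Finset.prod_eq_zero hj
        show (if j ∈ S then (X j : MvPolynomial (Fin d) ℂ) else 0) ^ (u j) = 0
        rw [if_neg hjS]
        exact zero_pow (Finsupp.mem_support_iff.1 hj)
      rw [h1, mul_zero, coeff_zero, coeff_monomial, if_neg]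
      rintro rfl
      exact (Finsupp.mem_support_iff.1 hj) (mon_off m S hjS)
  | add p q hp hq =>
    rw [map_add, coeff_add, coeff_add, hp, hq]

theorem tm_kS {k m r n : ℕ} (e : Fin n ≃ (Fin (k + 1) × Fin m) ⊕ Fin r) (ω : ℂ)
    (S : Finset (Fin (k + 1))) (x y : Fin (k + 1) → (Fin m → Bool)) (h : ∀ j ∈ S, x j = y j)
    (i c : Fin n) : kS S (tm e ω x i c) = kS S (tm e ω y i c) := by
  unfold tm
  rcases e i with ⟨j, l⟩ | b <;> rcases e c with ⟨a, g⟩ | b'
  · simp only
    by_cases hj : j ∈ S
    · rw [h j hj]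
    · have h0 : kS S (C (ω ^ (l : ℕ)) * X j) = 0 := by
        unfold kS
        rw [map_mul, aeval_X, if_neg hj, mul_zero]
      have key : ∀ P : Prop, ∀ [Decidable P],
          kS S (if P then C (ω ^ (l : ℕ)) * X j else 0) = 0 := by
        intro P _
        split_ifs
        · exact h0
        · exact map_zero _
      rw [key, key]
  · rfl
  · rfl
  · rfl

theorem loc : LocStmt := by
  intro k m r n e ω _ σ f a S x y hxy
  have key : ∀ x : Fin (k + 1) → (Fin m → Bool), coeff (mon m S) (coeff a
        (aeval (Sum.elim (fun p => (C (tm e ω x p.1 p.2) : MvPolynomial σ (MvPolynomial (Fin (k + 1)) ℂ)))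
          X) f)) = coeff (mon m S) (coeff a
        (aeval (Sum.elim (fun p => (C (kS S (tm e ω x p.1 p.2)) :
          MvPolynomial σ (MvPolynomial (Fin (k + 1)) ℂ))) X) f)) := by
    intro x
    rw [← coeff_kS]
    have h1 := MvPolynomial.coeff_map (kS S : MvPolynomial (Fin (k + 1)) ℂ →+* MvPolynomial (Fin (k + 1)) ℂ)
      (aeval (Sum.elim (fun p => (C (tm e ω x p.1 p.2) : MvPolynomial σ (MvPolynomial (Fin (k + 1)) ℂ)))
          X) f) a
    have h2 : (kS S) (coeff a (aeval (Sum.elim (fun p => (C (tm e ω x p.1 p.2) :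
        MvPolynomial σ (MvPolynomial (Fin (k + 1)) ℂ))) X) f)) =
        coeff a ((mapAlgHom (kS S)) (aeval (Sum.elim (fun p => (C (tm e ω x p.1 p.2) :
        MvPolynomial σ (MvPolynomial (Fin (k + 1)) ℂ))) X) f)) := h1.symm
    have h4 : (fun i => (mapAlgHom (kS S)) (Sum.elim (fun p : Fin n × Fin n =>
        (C (tm e ω x p.1 p.2) : MvPolynomial σ (MvPolynomial (Fin (k + 1)) ℂ))) X i)) =
        Sum.elim (fun p : Fin n × Fin n => (C (kS S (tm e ω x p.1 p.2)) :
          MvPolynomial σ (MvPolynomial (Fin (k + 1)) ℂ))) X := by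
      funext i
      rcases i with p | s
      · simp only [Sum.elim_inl, mapAlgHom_apply]
        exact map_C _ _
      · simp only [Sum.elim_inr, mapAlgHom_apply]
        exact map_X _ _
    rw [h2, comp_aeval_apply, h4]
  show coeff (mon m S) (coeff a _) = coeff (mon m S) (coeff a _)
  rw [key x, key y]
  have h3 : ∀ p : Fin n × Fin n, kS S (tm e ω x p.1 p.2) = kS S (tm e ω y p.1 p.2) :=
    fun p => tm_kS e ω S x y hxy p.1 p.2
  simp only [h3]

end Pool.Agent.W554.RP
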